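import Mathlib

namespace Pool.Agent.Results.MP_14f59b_co.Fourteen

open Finset

/-- A ballot for offices with a, b, c candidates: a bijection from positions to candidates for
each office. -/
abbrev Ballot (a b c : ℕ) := Equiv.Perm (Fin a) × Equiv.Perm (Fin b) × Equiv.Perm (Fin c)

/-- For each office and position the weighted count is the same for all candidates. -/
def Balanced {a b c : ℕ} (S : Finset (Ballot a b c)) (w : Ballot a b c → ℕ) : Prop :=
  (∀ p x y, ∑ β ∈ S.filter (fun β => β.1 p = x), w β = ∑ β ∈ S.filter (fun β => β.1 p = y), w β) ∧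
  (∀ p x y, ∑ β ∈ S.filter (fun β => β.2.1 p = x), w β =
    ∑ β ∈ S.filter (fun β => β.2.1 p = y), w β) ∧
  (∀ p x y, ∑ β ∈ S.filter (fun β => β.2.2 p = x), w β =
    ∑ β ∈ S.filter (fun β => β.2.2 p = y), w β)

def data : Fin 14 → Fin 5 × Fin 6 × Fin 7 × ℕ := ![(0, 0, 0, 29), (1, 1, 1, 28), (2, 2, 2, 27), (3, 3, 3, 23), (4, 4, 4, 22), (3, 5, 5, 18), (4, 5, 6, 17), (0, 4, 6, 13), (1, 3, 5, 12), (2, 2, 4, 8), (2, 1, 3, 7), (4, 0, 2, 3), (1, 0, 1, 2), (3, 0, 0, 1)]

def bal (i : Fin 14) : Ballot 5 6 7 :=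
  (Equiv.addRight (data i).1, Equiv.addRight (data i).2.1, Equiv.addRight (data i).2.2.1)

def wt (β : Ballot 5 6 7) : ℕ :=
  ∑ i : Fin 14, if (data i).1 = β.1 0 ∧ (data i).2.1 = β.2.1 0 ∧ (data i).2.2.1 = β.2.2 0 then
    (data i).2.2.2 else 0

lemma wt_bal : ∀ i, wt (bal i) = (data i).2.2.2 := by decide +kernel

lemma bal_inj : Function.Injective bal := by
  have : ∀ i j, ((bal i).1 0 = (bal j).1 0 ∧ (bal i).2.1 0 = (bal j).2.1 0 ∧
      (bal i).2.2 0 = (bal j).2.2 0) → i = j := by decide +kernel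
  intro i j h
  exact this i j (by simp [h])

lemma sum_eq (P : Ballot 5 6 7 → Prop) [DecidablePred P] :
    ∑ β ∈ (univ.image bal).filter P, wt β = ∑ i : Fin 14, if P (bal i) then (data i).2.2.2 else 0 := by
  rw [sum_filter, sum_image fun i _ j _ h => bal_inj h]
  simp [wt_bal]

theorem result : ∃ (S : Finset (Ballot 5 6 7)) (w : Ballot 5 6 7 → ℕ),
    S.card = 14 ∧ (∀ β ∈ S, 0 < w β) ∧ Balanced S w := by
  refine ⟨univ.image bal, wt, by rw [card_image_of_injective _ bal_inj]; rfl, ?_, ?_, ?_, ?_⟩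
  · intro β hβ
    obtain ⟨i, -, rfl⟩ := mem_image.1 hβ
    rw [wt_bal]
    revert i
    decide +kernel
  all_goals
    simp only [sum_eq]
    decide +kernel

end Pool.Agent.Results.MP_14f59b_co.Fourteen
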